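import Mathlib
import Pool.Agent.W977.CG.Spec

set_option autoImplicit false

namespace W285.CG

open Polynomial Filter

theorem ev_aux (d : ℕ) : ∀ (Q : ℚ[X]), Q.degree < (d : WithBot ℕ) → ∀ f : ℕ → ℚ,
    (∀ᶠ n in atTop, f n = Q.eval (n : ℚ)) →
    ∃ (K : ℕ) (R : ℚ[X]), (1 - PowerSeries.X) ^ K * PowerSeries.mk f = (R : PowerSeries ℚ) := by
  induction d with
  | zero =>
    intro Q hQ f hf
    have hQ0 : Q = 0 := by
      rw [← Polynomial.degree_eq_bot]
      rw [Nat.cast_zero] at hQ
      exact Nat.WithBot.lt_zero_iff.mp hQ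
    subst hQ0
    obtain ⟨N, hN⟩ := eventually_atTop.mp hf
    refine ⟨0, PowerSeries.trunc N (PowerSeries.mk f), ?_⟩
    ext n
    rw [pow_zero, one_mul, Polynomial.coeff_coe, PowerSeries.coeff_trunc]
    split_ifs with h
    · rfl
    · rw [PowerSeries.coeff_mk, hN n (not_lt.mp h), Polynomial.eval_zero]
  | succ d ih =>
    intro Q hQ f hf
    by_cases hQ0 : Q = 0
    · refine ih Q ?_ f hf
      rw [hQ0, Polynomial.degree_zero]
      exact WithBot.bot_lt_coe _
    set g : ℕ → ℚ := fun n => f n - (if n = 0 then 0 else f (n - 1)) with hg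
    set Q' : ℚ[X] := Q - Q.comp (X - C 1) with hQ'
    have h1 : (1 - PowerSeries.X) * PowerSeries.mk f = PowerSeries.mk g := by
      ext n
      rw [sub_mul, one_mul, map_sub, PowerSeries.coeff_mk, PowerSeries.coeff_mk, hg]
      cases n with
      | zero => simp
      | succ m => rw [PowerSeries.coeff_succ_X_mul]; simp
    have hdeg : Q'.degree < Q.degree := by
      refine Polynomial.degree_sub_lt_left ?_ hQ0 ?_
      · have : (Q.comp (X - C 1)).natDegree = Q.natDegree := by
          rw [Polynomial.natDegree_comp, Polynomial.natDegree_X_sub_C, mul_one]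
        have hne : Q.comp (X - C 1) ≠ 0 := by
          intro h0
          have h2 := congrArg (fun p => Polynomial.comp p (X + C 1)) h0
          simp only [Polynomial.comp_assoc, Polynomial.zero_comp] at h2
          apply hQ0
          have h3 : (X - C 1 : ℚ[X]).comp (X + C 1) = X := by simp
          rw [h3, Polynomial.comp_X] at h2
          exact h2
        rw [Polynomial.degree_eq_natDegree hQ0, Polynomial.degree_eq_natDegree hne, this]
      · rw [Polynomial.leadingCoeff_comp (by rw [Polynomial.natDegree_X_sub_C]; exact one_ne_zero),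
          (Polynomial.monic_X_sub_C (1 : ℚ)).leadingCoeff, one_pow, mul_one]
    have hdeg' : Q'.degree < (d : WithBot ℕ) := by
      rw [Polynomial.degree_eq_natDegree hQ0] at hdeg hQ
      have h4 : Q.natDegree < d + 1 := by exact_mod_cast hQ
      refine lt_of_lt_of_le hdeg ?_
      exact_mod_cast Nat.lt_succ_iff.mp h4
    have hev : ∀ᶠ n in atTop, g n = Q'.eval (n : ℚ) := by
      obtain ⟨N, hN⟩ := eventually_atTop.mp hf
      refine eventually_atTop.mpr ⟨N + 1, fun n hn => ?_⟩
      obtain ⟨m, rfl⟩ : ∃ m, n = m + 1 := ⟨n - 1, by omega⟩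
      have hgm : g (m + 1) = f (m + 1) - f m := by simp [hg]
      rw [hgm, hN (m + 1) (by omega), hN m (by omega), hQ', Polynomial.eval_sub,
        Polynomial.eval_comp]
      simp
    obtain ⟨K, R, hR⟩ := ih Q' hdeg' g hev
    refine ⟨K + 1, R, ?_⟩
    rw [pow_succ, mul_assoc, h1, hR]

theorem part : W977.CG.PartEv := fun f Q h => by
  have hd : Q.degree < ((Q.natDegree + 1 : ℕ) : WithBot ℕ) :=
    lt_of_le_of_lt Polynomial.degree_le_natDegree (by exact_mod_cast Nat.lt_succ_self _)
  exact ev_aux _ Q hd f h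

end W285.CG
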